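import Mathlib

namespace Pool.Agent.H.MP_ee84c2_an

open Finset

variable {𝕜 : Type} [RCLike 𝕜]

abbrev E (𝕜 : Type) [RCLike 𝕜] : Type := lp (fun _ : ℕ => 𝕜) 1

noncomputable def d (n : ℕ) : E 𝕜 := lp.single 1 n 1 - lp.single 1 (n + 1) 1

noncomputable abbrev X (𝕜 : Type) [RCLike 𝕜] : Submodule 𝕜 (E 𝕜) :=
  (Submodule.span 𝕜 (Set.range (d (𝕜 := 𝕜)))).topologicalClosure

noncomputable def x (n : ℕ) : X 𝕜 :=
  ⟨d n, Submodule.le_topologicalClosure _ (Submodule.subset_span ⟨n, rfl⟩)⟩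

noncomputable def g (k : ℕ) : X 𝕜 →L[𝕜] 𝕜 :=
  (lp.evalCLM 𝕜 (fun _ : ℕ => 𝕜) 1 k).comp (X 𝕜).subtypeL

theorem g_apply (k : ℕ) (v : X 𝕜) : g k v = v.1 k := rfl

noncomputable def f (n : ℕ) : X 𝕜 →L[𝕜] 𝕜 := ∑ k ∈ range (n + 1), g k

theorem g_x (k n : ℕ) : g k (x n : X 𝕜) =
    (if k = n then 1 else 0) - (if k = n + 1 then 1 else 0) := by
  show (lp.single 1 n (1 : 𝕜) : E 𝕜) k - (lp.single 1 (n + 1) (1 : 𝕜) : E 𝕜) k = _
  rw [lp.single_apply, lp.single_apply, Pi.single_apply, Pi.single_apply]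

theorem f_apply (n : ℕ) (v : X 𝕜) : f n v = ∑ k ∈ range (n + 1), g k v := by
  simp [f]

theorem f_x (k n : ℕ) : f k (x n : X 𝕜) = if k = n then 1 else 0 := by
  simp only [f_apply, g_x, sum_sub_distrib, sum_ite_eq', mem_range]
  split_ifs <;> first | omega | simp

theorem dense_x : Dense (Submodule.span 𝕜 (Set.range (x (𝕜 := 𝕜))) : Set (X 𝕜)) := by
  intro v
  rw [Topology.IsInducing.subtypeVal.closure_eq_preimage_closure_image]
  have : Subtype.val '' (Submodule.span 𝕜 (Set.range (x (𝕜 := 𝕜))) : Set (X 𝕜)) =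
      (Submodule.span 𝕜 (Set.range (d (𝕜 := 𝕜))) : Set (E 𝕜)) := by
    have h := Submodule.map_span (X 𝕜).subtype (Set.range (x (𝕜 := 𝕜)))
    rw [← Set.range_comp] at h
    exact congrArg (fun s : Submodule 𝕜 (E 𝕜) => (s : Set (E 𝕜))) h
  exact (congrArg (fun s : Set (E 𝕜) => v.1 ∈ closure s) this).mpr v.2

theorem total (v : X 𝕜) (h : ∀ n, f n v = 0) : v = 0 := by
  refine Subtype.ext (lp.ext (funext fun k => ?_))
  show g k v = 0
  have h1 := h k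
  rw [f_apply, sum_range_succ] at h1
  rcases k with _ | k
  · simpa using h1
  · rwa [← f_apply, h, zero_add] at h1

theorem sum_le (v : X 𝕜) (s : Finset ℕ) : ∑ k ∈ s, ‖g k v‖ ≤ ‖v‖ := by
  have := lp.sum_rpow_le_norm_rpow (p := 1) (by simp) v.1 s
  simpa [g_apply] using this

theorem norm_f (n : ℕ) : ‖(f n : X 𝕜 →L[𝕜] 𝕜)‖ ≤ 1 := by
  refine ContinuousLinearMap.opNorm_le_bound _ zero_le_one fun v => ?_
  rw [one_mul, f_apply]
  exact (norm_sum_le _ _).trans (sum_le v _)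

theorem norm_ss (a b : ℕ) : ‖(lp.single 1 a 1 - lp.single 1 b 1 : E 𝕜)‖ ≤ 2 := by
  refine (norm_sub_le _ _).trans ?_
  rw [lp.norm_single one_pos, lp.norm_single one_pos, norm_one]; norm_num

theorem norm_x (n : ℕ) : ‖(x n : X 𝕜)‖ ≤ 2 := norm_ss n (n + 1)

theorem g_zero (A : Finset ℕ) (c : ℕ → 𝕜) :
    g 0 (∑ n ∈ A, c n • (x n : X 𝕜)) = (if 0 ∈ A then c 0 else 0) - 0 := by
  simp [map_sum, g_x]

theorem g_succ (A : Finset ℕ) (c : ℕ → 𝕜) (k : ℕ) :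
    g (k + 1) (∑ n ∈ A, c n • (x n : X 𝕜)) =
      (if k + 1 ∈ A then c (k + 1) else 0) - (if k ∈ A then c k else 0) := by
  simp [map_sum, g_x, mul_sub]

def R (e b : 𝕜) : Prop := (e = 0 ∧ b = 0) ∨ (‖e‖ = 1 ∧ ∃ a : ℝ, 1 ≤ a ∧ b = e * a)

theorem R.le {e b e' b' : 𝕜} (h : R e b) (h' : R e' b') : ‖e - e'‖ ≤ ‖b - b'‖ := by
  have one : ∀ (e : 𝕜) (a : ℝ), ‖e‖ = 1 → 1 ≤ a → ‖e * a‖ = a := by
    intro e a he ha
    rw [norm_mul, he, one_mul, RCLike.norm_ofReal, abs_of_nonneg (by linarith)]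
  rcases h with ⟨rfl, rfl⟩ | ⟨he, a, ha, rfl⟩ <;> rcases h' with ⟨rfl, rfl⟩ | ⟨he', a', ha', rfl⟩
  · exact le_rfl
  · rw [zero_sub, zero_sub, norm_neg, norm_neg, he', one _ _ he' ha']; exact ha'
  · rw [sub_zero, sub_zero, he, one _ _ he ha]; exact ha
  · refine le_of_sq_le_sq ?_ (norm_nonneg _)
    rw [norm_sub_sq (𝕜 := 𝕜), norm_sub_sq (𝕜 := 𝕜), one _ _ he ha, one _ _ he' ha', he, he']
    have h1 : RCLike.re (inner 𝕜 e e') ≤ 1 := by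
      have := re_inner_le_norm (𝕜 := 𝕜) e e'
      rwa [he, he', one_mul] at this
    have h2 : RCLike.re (inner 𝕜 (e * a) (e' * a')) = a * a' * RCLike.re (inner 𝕜 e e') := by
      rw [mul_comm e, mul_comm e', ← smul_eq_mul, ← smul_eq_mul, inner_smul_left,
        inner_smul_right]
      simp [mul_assoc]
    rw [h2]
    have h3 : 1 ≤ a * a' := by nlinarith
    nlinarith [mul_nonneg (sub_nonneg.2 h3) (sub_nonneg.2 h1), sq_nonneg (a - a')]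

theorem lucc (A : Finset ℕ) (ε : ℕ → 𝕜) (hε : ∀ n, ‖ε n‖ = 1) (a : ℕ → ℝ) (ha : ∀ n, 1 ≤ a n) :
    ‖∑ n ∈ A, ε n • (x n : X 𝕜)‖ ≤ ‖∑ n ∈ A, (ε n * a n) • (x n : X 𝕜)‖ := by
  have hR : ∀ k, R (if k ∈ A then ε k else 0) (if k ∈ A then ε k * a k else 0) := by
    intro k
    split_ifs
    · exact Or.inr ⟨hε k, a k, ha k, rfl⟩
    · exact Or.inl ⟨rfl, rfl⟩
  refine lp.norm_mono (p := 1) one_ne_zero (x := (∑ n ∈ A, ε n • (x n : X 𝕜)).1)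
    (y := (∑ n ∈ A, (ε n * a n) • (x n : X 𝕜)).1) fun k => ?_
  rw [← g_apply, ← g_apply]
  rcases k with _ | k
  · rw [g_zero, g_zero]; exact (hR 0).le (Or.inl ⟨rfl, rfl⟩)
  · rw [g_succ, g_succ]; exact (hR _).le (hR _)

theorem full (N : ℕ) : ‖∑ n ∈ range N, (1 : 𝕜) • (x n : X 𝕜)‖ ≤ 2 := by
  have : (∑ n ∈ range N, (1 : 𝕜) • (x n : X 𝕜)).1 = lp.single 1 0 1 - lp.single 1 N 1 := by
    rw [Submodule.coe_sum]
    simp only [one_smul]
    exact Finset.sum_range_sub' (fun n => (lp.single 1 n (1 : 𝕜) : E 𝕜)) N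
  show ‖(∑ n ∈ range N, (1 : 𝕜) • (x n : X 𝕜)).1‖ ≤ 2
  rw [this]; exact norm_ss 0 N

theorem half (m : ℕ) :
    (m : ℝ) ≤ ‖∑ n ∈ (range m).image (fun i => 2 * i), (1 : 𝕜) • (x n : X 𝕜)‖ := by
  refine le_trans (le_of_eq ?_) (sum_le _ ((range m).image fun i => 2 * i + 1))
  rw [sum_image fun a _ b _ h => by simpa using h]
  rw [sum_congr rfl (g := fun _ => (1 : ℝ))]
  · simp
  · intro i hi
    rw [g_succ, if_neg, if_pos (mem_image.2 ⟨i, hi, rfl⟩)]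
    · simp
    · simp only [mem_image, not_exists, not_and]
      intro j _; omega

end Pool.Agent.H.MP_ee84c2_an
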